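import Mathlib
import Pool.Agent.U424.RL.Stm

/-!
# Project RL, package TRD: a nonzero polynomial that vanishes at all points `(z_i x_i ^ 2)`
-/

set_option autoImplicit false

open MvPolynomial Pool.Agent.U424.RL

namespace Pool.Agent.U20.RL.TRD

section
variable {k : Type} [Field k] {E : Type} [Fintype E]

/-- the dimension of the orthogonal complement -/
theorem finrank_orth (L : Submodule k (E → k)) :
    Module.finrank k L + Module.finrank k (orth L) = Fintype.card E := by
  classical
  have h1 := Subspace.finrank_add_finrank_dualAnnihilator_eq L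
  rw [Module.finrank_fintype_fun_eq_card] at h1
  have h2 : (orth L).map (dotProductEquiv k E).toLinearMap = L.dualAnnihilator := by
    ext f
    constructor
    · rintro ⟨c, hc, rfl⟩
      rw [Submodule.mem_dualAnnihilator]
      intro y hy
      have := hc y hy
      simpa [dotProduct] using this
    · intro hf
      obtain ⟨c, rfl⟩ := (dotProductEquiv k E).surjective f
      refine ⟨c, ?_, rfl⟩
      intro y hy
      have := (Submodule.mem_dualAnnihilator _).1 hf y hy
      simpa [dotProduct] using this
  have h3 : Module.finrank k (orth L) = Module.finrank k L.dualAnnihilator := by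
    rw [← h2]
    exact (LinearEquiv.finrank_eq ((dotProductEquiv k E).submoduleMap (orth L)))
  rw [h3]
  exact h1

/-- a point of `M` over `S` is an `S`-combination of a family that spans `M` -/
theorem onL_span (M : Submodule k (E → k)) {ι : Type} [Fintype ι] (v : ι → E → k)
    (hv : Submodule.span k (Set.range v) = M) {S : Type} [CommRing S] [Algebra k S] (x : E → S)
    (hx : OnL M x) : ∃ t : ι → S, ∀ i, x i = ∑ a, t a * algebraMap k S (v a i) := by
  classical
  obtain ⟨g, hg⟩ := LinearMap.exists_extend (LinearMap.id : M →ₗ[k] M)
  have hgM : ∀ y (hy : y ∈ M), g y = ⟨y, hy⟩ := fun y hy => by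
    have := LinearMap.congr_fun hg ⟨y, hy⟩
    simpa using this
  have hsum : ∀ y : E → k, ∀ i, (g y : E → k) i = ∑ j, (g (Pi.single j 1) : E → k) i * y j := by
    intro y i
    have h1 : y = ∑ j, y j • (Pi.single j 1 : E → k) := by
      ext l
      simp [Finset.sum_apply, Pi.single_apply]
    conv_lhs => rw [h1]
    rw [map_sum]
    simp only [map_smul, Submodule.coe_sum, Submodule.coe_smul, Finset.sum_apply, Pi.smul_apply,
      smul_eq_mul]
    exact Finset.sum_congr rfl fun j _ => mul_comm _ _
  have hxi : ∀ i, x i = ∑ j, algebraMap k S ((g (Pi.single j 1) : E → k) i) * x j := by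
    intro i
    have hc : (fun j => (if j = i then (1 : k) else 0) - (g (Pi.single j 1) : E → k) i) ∈ orth M := by
      intro y hy
      have h2 := hsum y i
      rw [hgM y hy] at h2
      simp only [sub_mul, Finset.sum_sub_distrib, ite_mul, one_mul, zero_mul, Finset.sum_ite_eq',
        Finset.mem_univ, if_true]
      exact sub_eq_zero.2 h2
    have h3 := hx _ hc
    simp only [map_sub, sub_mul, Finset.sum_sub_distrib] at h3
    have h4 : ∑ j, algebraMap k S (if j = i then (1 : k) else 0) * x j = x i := by
      rw [Finset.sum_eq_single i]
      · simp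
      · intro b _ hb
        simp [hb]
      · intro h
        exact absurd (Finset.mem_univ i) h
    rw [h4] at h3
    exact sub_eq_zero.1 h3
  have hq : ∀ j, ∃ q : ι → k, ∑ a, q a • v a = (g (Pi.single j 1) : E → k) := by
    intro j
    have : (g (Pi.single j 1) : E → k) ∈ Submodule.span k (Set.range v) := by
      rw [hv]
      exact (g (Pi.single j 1)).2
    exact (Submodule.mem_span_range_iff_exists_fun k).1 this
  choose q hq using hq
  refine ⟨fun a => ∑ j, x j * algebraMap k S (q j a), fun i => ?_⟩
  rw [hxi i]
  have h5 : ∀ j, algebraMap k S ((g (Pi.single j 1) : E → k) i) * x j =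
      ∑ a, x j * algebraMap k S (q j a) * algebraMap k S (v a i) := by
    intro j
    rw [← hq j]
    simp only [Finset.sum_apply, Pi.smul_apply, smul_eq_mul, map_sum, map_mul, Finset.sum_mul]
    exact Finset.sum_congr rfl fun a _ => by ring
  rw [Finset.sum_congr rfl fun j _ => h5 j, Finset.sum_comm]
  exact Finset.sum_congr rfl fun a _ => by rw [Finset.sum_mul]

end

theorem t_TRD (_hOO : S_OO) : S_TRD := by
  intro k _ _ E _ hE L
  classical
  obtain ⟨i0⟩ := hE
  by_cases hL : ∃ y ∈ L, y i0 ≠ 0
  · obtain ⟨b', hb', hbn⟩ := hL
    obtain ⟨b0, hb0, hb01⟩ : ∃ b0 ∈ L, b0 i0 = 1 :=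
      ⟨(b' i0)⁻¹ • b', L.smul_mem _ hb', by simp [hbn]⟩
    set M0 : Submodule k (E → k) :=
      L ⊓ LinearMap.ker (LinearMap.proj i0 : (E → k) →ₗ[k] k) with hM0
    have hlt : M0 < L := by
      refine lt_of_le_of_ne inf_le_left fun h => ?_
      have h1 : b0 ∈ M0 := by rw [h]; exact hb0
      have h2 : b0 i0 = 0 := by simpa using h1.2
      rw [hb01] at h2
      exact one_ne_zero h2
    have hfr : Module.finrank k M0 < Module.finrank k L := Submodule.finrank_lt_finrank_of_lt hlt
    have hcard : Module.finrank k M0 + Module.finrank k (orth L) < Fintype.card E := by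
      have := finrank_orth L
      omega
    let B := Module.finBasis k M0
    let C' := Module.finBasis k (orth L)
    let v : Option (Fin (Module.finrank k M0)) → E → k := fun a => a.elim b0 (fun a => (B a : E → k))
    let w : Fin (Module.finrank k (orth L)) → E → k := fun a => (C' a : E → k)
    have hBspan : Submodule.span k (Set.range fun a => (B a : E → k)) = M0 := by
      have h1 := B.span_eq
      have h2 := congrArg (Submodule.map M0.subtype) h1
      rw [Submodule.map_span, Submodule.map_top, Submodule.range_subtype, ← Set.range_comp] at h2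
      exact h2
    have hwspan : Submodule.span k (Set.range w) = orth L := by
      have h1 := C'.span_eq
      have h2 := congrArg (Submodule.map (orth L).subtype) h1
      rw [Submodule.map_span, Submodule.map_top, Submodule.range_subtype, ← Set.range_comp] at h2
      exact h2
    have hvspan : Submodule.span k (Set.range v) = L := by
      apply le_antisymm
      · rw [Submodule.span_le]
        rintro _ ⟨a, rfl⟩
        cases a with
        | none => exact hb0
        | some a => exact (B a).2.1
      · intro y hy
        have h1 : y - y i0 • b0 ∈ M0 := by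
          refine ⟨L.sub_mem hy (L.smul_mem _ hb0), ?_⟩
          simp [hb01]
        rw [← hBspan] at h1
        have h2 : Submodule.span k (Set.range fun a => (B a : E → k)) ≤
            Submodule.span k (Set.range v) := by
          apply Submodule.span_mono
          rintro _ ⟨a, rfl⟩
          exact ⟨some a, rfl⟩
        have h3 : b0 ∈ Submodule.span k (Set.range v) := Submodule.subset_span ⟨none, rfl⟩
        have h4 := Submodule.add_mem _ (h2 h1) (Submodule.smul_mem _ (y i0) h3)
        simpa using h4
    let τ := Fin (Module.finrank k M0) ⊕ Fin (Module.finrank k (orth L))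
    let xx : E → MvPolynomial τ k := fun i => C (b0 i) + ∑ a, X (Sum.inl a) * C ((B a : E → k) i)
    let zz : E → MvPolynomial τ k := fun i => ∑ b, X (Sum.inr b) * C (w b i)
    let φ : MvPolynomial E k →ₐ[k] MvPolynomial τ k := aeval fun i => zz i * xx i ^ 2
    have hni : ¬ Function.Injective φ := by
      intro h
      have h1 := _root_.trdeg_le_of_injective φ h
      rw [MvPolynomial.trdeg_of_isDomain, MvPolynomial.trdeg_of_isDomain, Cardinal.lift_id,
        Cardinal.lift_id, Cardinal.mk_fintype, Cardinal.mk_fintype, Nat.cast_le] at h1
      simp only [τ, Fintype.card_sum, Fintype.card_fin] at h1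
      omega
    obtain ⟨R, hR0, hR⟩ : ∃ R, φ R = 0 ∧ R ≠ 0 := by
      by_contra hcon
      push Not at hcon
      exact hni ((injective_iff_map_eq_zero φ).2 hcon)
    refine ⟨R, hR, ?_⟩
    intro S _ _ x z hx hz hxn
    obtain ⟨t, ht⟩ := onL_span L v hvspan x hx
    obtain ⟨s, hs⟩ := onL_span (orth L) w hwspan z hz
    have ht' : ∀ i, x i = t none * algebraMap k S (b0 i) +
        ∑ a, t (some a) * algebraMap k S ((B a : E → k) i) := by
      intro i
      rw [ht i, Fintype.sum_option]
      rfl
    have ht0 : x i0 = t none := by
      have h1 : ∀ a, (B a : E → k) i0 = 0 := fun a => by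
        have := (B a).2.2
        simpa using this
      rw [ht' i0, hb01]
      simp [h1]
    let g : τ → S := Sum.elim (fun a => t (some a) / x i0) (fun b => s b * x i0 ^ 2)
    have hxx : ∀ i, aeval g (xx i) = x i / x i0 := by
      intro i
      rw [ht' i, ← ht0, add_div, mul_div_right_comm, div_self (hxn i0), one_mul, Finset.sum_div]
      simp only [xx, map_add, map_sum, map_mul, aeval_X, algHom_C, g, Sum.elim_inl]
      congr 1
      exact Finset.sum_congr rfl fun a _ => by rw [mul_div_right_comm]
    have hzz : ∀ i, aeval g (zz i) = z i * x i0 ^ 2 := by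
      intro i
      rw [hs i, Finset.sum_mul]
      simp only [zz, map_sum, map_mul, aeval_X, algHom_C, g, Sum.elim_inr]
      exact Finset.sum_congr rfl fun b _ => by ring
    have hcomp : (aeval g).comp φ = aeval (img x z) := by
      apply MvPolynomial.algHom_ext
      intro i
      simp only [φ, AlgHom.comp_apply, aeval_X, map_mul, map_pow, hxx, hzz, img]
      have := hxn i0
      field_simp
    rw [← hcomp, AlgHom.comp_apply, hR0, map_zero]
  · push Not at hL
    refine ⟨1, one_ne_zero, ?_⟩
    intro S _ _ x z hx _ hxn
    exfalso
    have h1 : (Pi.single i0 1 : E → k) ∈ orth L := by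
      intro y hy
      rw [Finset.sum_eq_single i0]
      · simp [hL y hy]
      · intro b _ hb
        simp [hb]
      · intro h
        exact absurd (Finset.mem_univ i0) h
    have h2 := hx _ h1
    rw [Finset.sum_eq_single i0] at h2
    · simp only [Pi.single_eq_same, map_one, one_mul] at h2
      exact hxn i0 h2
    · intro b _ hb
      simp [hb]
    · intro h
      exact absurd (Finset.mem_univ i0) h

end Pool.Agent.U20.RL.TRD
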